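import Pool.Agent.P8H79.KR.Stm

set_option autoImplicit false

/-! PROJECT KR, package F: the topology of `XS e`. -/

namespace Pool.Agent.P8H89.KR

open Topology Set Filter Pool.Agent.P8H79.KR

theorem not_countable_W : ¬ (univ : Set W).Countable := by
  intro h
  have h1 : Countable W := countable_univ_iff.1 h
  have h2 := Cardinal.mk_le_aleph0_iff.2 h1
  rw [Cardinal.mk_ord_toType] at h2
  exact absurd h2 (not_le.2 (Cardinal.aleph0_lt_aleph_one))

theorem true_not_mem (e : ℕ → W) : (fun _ => true : Y) ∉ XS e := by
  rintro (h | ⟨n, hn⟩)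
  · apply not_countable_W
    convert h using 1
    ext i
    simp
  · have := congrFun hn (e n)
    simp [pt] at this

theorem dense_XS (e : ℕ → W) : Dense (XS e) := by
  classical
  rw [dense_iff_inter_open]
  rintro U hU ⟨y, hy⟩
  obtain ⟨I, u, hu, hsub⟩ := isOpen_pi_iff.1 hU y hy
  refine ⟨fun i => if i ∈ I then y i else false, hsub ?_, Or.inl ?_⟩
  · intro i hi
    simp only [Finset.mem_coe] at hi
    simp only [if_pos hi]
    exact (hu i hi).2
  · refine (I.finite_toSet.countable).mono ?_
    intro i hi
    simp only [mem_ofPred_eq] at hi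
    by_contra h
    simp only [Finset.mem_coe] at h
    simp [if_neg h] at hi

theorem cont_coord {e : ℕ → W} (i : W) (g : Bool → ℝ) :
    Continuous fun x : XS e => g ((x : Y) i) :=
  (continuous_of_discreteTopology (f := g)).comp
    ((continuous_apply i).comp continuous_subtype_val)

theorem sF : S_F := by
  classical
  intro e he
  refine ⟨dense_XS e, ?_, ?_, ?_⟩
  · intro c hc
    refine ⟨fun x => ∑' n, c n * (if (x : Y) (e n) = false then 1 else 0), ?_, ?_⟩
    · refine continuous_tsum (u := fun n => |c n|) (fun n => ?_) hc ?_
      · exact cont_coord (e n) (fun b => c n * (if b = false then 1 else 0))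
      · intro n x
        rw [Real.norm_eq_abs, abs_mul]
        refine mul_le_of_le_one_right (abs_nonneg _) ?_
        split_ifs <;> simp
    · intro n
      dsimp only
      rw [tsum_eq_single n]
      · simp [pt]
      · intro m hm
        have : e m ≠ e n := fun h => hm (he h)
        simp [pt, this]
  · intro x F hx hF
    obtain ⟨i0, hi0⟩ : ∃ i0, (x : Y) i0 = false := by
      by_contra h
      push Not at h
      apply true_not_mem e
      have : (x : Y) = fun _ => true := by
        funext i
        simpa using h i
      rw [← this]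
      exact x.2
    obtain ⟨J0, hJ0⟩ : ∃ J : Finset W, ∀ n, ∃ j ∈ J, pt (e n) j ≠ (x : Y) j := by
      by_cases h : (x : Y) = pt i0
      · refine ⟨{i0}, fun n => ⟨i0, by simp, ?_⟩⟩
        have h1 : e n ≠ i0 := fun h' => hx n (by rw [h', h])
        simp [pt, hi0, h1.symm]
      · obtain ⟨i1, hi1⟩ := Function.ne_iff.1 h
        refine ⟨{i0, i1}, fun n => ?_⟩
        by_cases h2 : e n = i0
        · exact ⟨i1, by simp, by rw [h2]; exact fun h => hi1 h.symm⟩
        · refine ⟨i0, by simp, ?_⟩
          have h3 : i0 ≠ e n := fun h => h2 h.symm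
          simp [pt, hi0, h3]
    have hJ1 : ∀ y : XS e, y ∈ F → ∃ j, (y : Y) j ≠ (x : Y) j := by
      intro y hy
      have : (y : Y) ≠ (x : Y) := fun h => hF (by rw [← Subtype.ext h]; exact hy)
      exact Function.ne_iff.1 this
    have : Nonempty W := ⟨i0⟩
    choose! j hj using hJ1
    set J : Finset W := J0 ∪ F.image j with hJ
    let r : XS e → (J → Bool) := fun y i => (y : Y) i
    have hr : Continuous r := by
      refine continuous_pi fun i => ?_
      exact (continuous_apply (i : W)).comp continuous_subtype_val
    refine ⟨fun y => if r y = r x then 1 else 0, ?_, by simp, ?_, ?_⟩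
    · exact (continuous_of_discreteTopology (f := fun z : J → Bool => if z = r x then (1 : ℝ) else 0)).comp hr
    · intro y hy
      have : r y ≠ r x := by
        intro h
        have := congrFun h ⟨j y, by rw [hJ]; exact Finset.mem_union_right _ (Finset.mem_image_of_mem _ hy)⟩
        exact hj y hy this
      simp [this]
    · intro n
      obtain ⟨i, hi, hi'⟩ := hJ0 n
      have : r ⟨pt (e n), Or.inr ⟨n, rfl⟩⟩ ≠ r x := by
        intro h
        have := congrFun h ⟨i, by rw [hJ]; exact Finset.mem_union_left _ hi⟩
        exact hi' this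
      simp [this]
  · rw [tendsto_pi_nhds]
    intro i
    refine tendsto_const_nhds.congr' ?_
    have h1 : ∀ᶠ n in atTop, e n ≠ i := by
      rw [← Nat.cofinite_eq_atTop]
      have h2 : ({i}ᶜ : Set W) ∈ (cofinite : Filter W) := by
        rw [mem_cofinite, compl_compl]
        exact finite_singleton i
      filter_upwards [he.tendsto_cofinite h2] with n hn
      simpa using hn
    filter_upwards [h1] with n hn
    simp [pt, hn.symm]

end Pool.Agent.P8H89.KR
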