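import Pool.Agent.P8H79.KR.Stm

set_option autoImplicit false

/-! PROJECT KR, packages C1 and C2: the Markov topology. -/

namespace Pool.Agent.P8H89.KR

open Topology Set Filter Pool.Agent.P8H79.KR

section ext
variable {X : Type}

theorem ext_add (h : X → ℝ) (a b : X →₀ ℤ) : ext h (a + b) = ext h a + ext h b := by
  unfold P8H79.KR.ext
  exact Finsupp.sum_add_index' (fun _ => by simp) (fun _ _ _ => by push_cast; ring)

theorem ext_zero (h : X → ℝ) : ext h (0 : X →₀ ℤ) = 0 := by
  unfold P8H79.KR.ext
  exact Finsupp.sum_zero_index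

/-- the extension as a homomorphism -/
noncomputable def extHom (h : X → ℝ) : (X →₀ ℤ) →+ ℝ where
  toFun := ext h
  map_zero' := ext_zero h
  map_add' := ext_add h

theorem extHom_apply (h : X → ℝ) (g : X →₀ ℤ) : extHom h g = ext h g := rfl

theorem ext_ι (h : X → ℝ) (x : X) : ext h (ι X x) = h x := by
  unfold P8H79.KR.ext ι
  rw [Finsupp.sum_single_index] <;> simp

theorem ext_comp_ι (h : X → ℝ) : ext h ∘ ι X = h := funext fun x => ext_ι h x

/-- the topology induced by one extension -/
@[instance_reducible] noncomputable def TI (h : X → ℝ) : TopologicalSpace (X →₀ ℤ) :=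
  TopologicalSpace.induced (ext h) inferInstance

theorem TI_group (h : X → ℝ) : @IsTopologicalAddGroup (X →₀ ℤ) (TI h) _ := by
  have := topologicalAddGroup_induced (extHom h)
  exact this

theorem TI_induced (h : X → ℝ) :
    TopologicalSpace.induced (ι X) (TI h) = TopologicalSpace.induced h inferInstance := by
  unfold TI
  rw [induced_compose, ext_comp_ι]

end ext

theorem sC1 : S_C1 := by
  intro X TX _
  set S : Set (TopologicalSpace (X →₀ ℤ)) :=
    {T | @IsTopologicalAddGroup (X →₀ ℤ) T _ ∧ TX = TopologicalSpace.induced (ι X) T} with hS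
  -- a group topology inducing the topology of `X`
  have hne : (⨅ h : {h : X → ℝ // Continuous h}, TI h.1) ∈ S := by
    refine ⟨topologicalAddGroup_iInf fun h => TI_group h.1, ?_⟩
    rw [induced_iInf]
    simp only [TI_induced]
    refine le_antisymm (le_iInf fun h => continuous_iff_le_induced.1 h.2) ?_
    intro U hU
    -- `U` is open in the weak topology
    refine (@isOpen_iff_forall_mem_open _ (⨅ h : {h : X → ℝ // Continuous h},
      TopologicalSpace.induced h.1 inferInstance) U).2 ?_
    intro x hx
    obtain ⟨f, hf, hfx, hfU⟩ := CompletelyRegularSpace.completely_regular_isOpen x U hU hx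
    have hc : Continuous fun y => (f y : ℝ) := continuous_subtype_val.comp hf
    refine ⟨{y | (f y : ℝ) < 1}, ?_, ?_, ?_⟩
    · intro y hy
      by_contra h
      have := hfU h
      simp only [mem_ofPred_eq] at hy
      rw [this] at hy
      simp at hy
    · have h1 : (⨅ h : {h : X → ℝ // Continuous h},
          TopologicalSpace.induced h.1 (inferInstance : TopologicalSpace ℝ)) ≤
          TopologicalSpace.induced (fun y => (f y : ℝ)) inferInstance :=
        iInf_le (fun h : {h : X → ℝ // Continuous h} =>
          TopologicalSpace.induced h.1 (inferInstance : TopologicalSpace ℝ)) ⟨_, hc⟩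
      refine h1 _ ?_
      exact ⟨Iio 1, isOpen_Iio, rfl⟩
    · simp [hfx]
  have hind : TX = TopologicalSpace.induced (ι X) (sInf S) := by
    rw [sInf_eq_iInf, induced_iInf]
    simp only [induced_iInf]
    refine le_antisymm (le_iInf fun T => le_iInf fun hT => le_of_eq hT.2) ?_
    exact iInf_le_of_le _ (iInf_le_of_le hne (le_of_eq hne.2.symm))
  exact ⟨sInf S, topologicalAddGroup_sInf fun T hT => hT.1, hind,
    fun T' hT' hi => sInf_le ⟨hT', hi⟩⟩

theorem sC2 : S_C2 := by
  intro X TX _ T hT
  have hc : @Continuous _ _ _ T (ι X) := continuous_iff_le_induced.2 (le_of_eq hT.induces)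
  have hfin : ∀ T' : TopologicalSpace (X →₀ ℤ), @IsTopologicalAddGroup (X →₀ ℤ) T' _ →
        @Continuous _ _ _ T' (ι X) → T ≤ T' := by
    intro T' hT' hc'
    have h1 : T ≤ T ⊓ T' := by
      refine hT.finest _ (topologicalAddGroup_inf hT.group hT') ?_
      rw [induced_inf, ← hT.induces]
      exact (inf_eq_left.2 (continuous_iff_le_induced.1 hc')).symm
    exact h1.trans inf_le_right
  have hext : ∀ h : X → ℝ, Continuous h → @Continuous _ _ T _ (ext h) := by
    intro h hh
    have h1 : T ≤ TI h := by
      refine hfin _ (TI_group h) ?_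
      refine continuous_iff_le_induced.2 ?_
      rw [TI_induced]
      exact continuous_iff_le_induced.1 hh
    exact continuous_iff_le_induced.2 h1
  refine ⟨hc, hfin, hext, ?_⟩
  let _ := T
  have := hT.group
  let _ : UniformSpace (X →₀ ℤ) := IsTopologicalAddGroup.rightUniformSpace (X →₀ ℤ)
  have : T0Space (X →₀ ℤ) := by
    refine ⟨fun g g' hgg => ?_⟩
    by_contra hne
    have hne' : g - g' ≠ 0 := sub_ne_zero.2 hne
    obtain ⟨x, hx⟩ := Finsupp.ne_iff.1 hne'
    classical
    set K : Set X := ↑((g - g').support.erase x) with hK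
    obtain ⟨f, hf, hfx, hfK⟩ := CompletelyRegularSpace.completely_regular x K
      (Finset.finite_toSet _).isClosed (by simp [hK])
    set h : X → ℝ := fun y => 1 - (f y : ℝ) with hh
    have hcont : Continuous h := continuous_const.sub (continuous_subtype_val.comp hf)
    have h1 : ext h g = ext h g' := (hgg.map (hext h hcont)).eq
    have h2 : ext h (g - g') = 0 := by
      have : ext h g = ext h (g - g') + ext h g' := by rw [← ext_add, sub_add_cancel]
      linarith
    have h3 : ext h (g - g') = (((g - g') x : ℤ) : ℝ) := by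
      unfold P8H79.KR.ext
      rw [Finsupp.sum, Finset.sum_eq_single x]
      · simp [hh, hfx]
      · intro y hy hyx
        have : f y = 1 := hfK (by simp only [hK, Finset.mem_coe]; exact Finset.mem_erase.2 ⟨hyx, hy⟩)
        simp [hh, this]
      · intro hx'
        exact absurd (Finsupp.notMem_support_iff.1 hx') hx
    rw [h2] at h3
    exact hx (by exact_mod_cast h3.symm)
  exact {}

end Pool.Agent.P8H89.KR
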